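import Pool.Agent.H45.Lib.Ts3997aac3.Q276.PL.Stm

/-!
Project PL of helper276, job UFIN: all squarefree `d ≤ X`, from the blocks `[D, 2 D]`.
-/

set_option autoImplicit false

namespace Pool.Agent.Q144.UF

open Pool.Agent.Q276.PL Filter

noncomputable section

theorem exists_fund (d x y : ℤ) (hd : 1 ≤ d) (hy : 1 ≤ y) (h : x ^ 2 - d * y ^ 2 = 1) :
    ∃ x₀ y₀ : ℤ, Fund d x₀ y₀ ∧ y₀ ≤ y := by
  classical
  have hex : ∃ n : ℕ, 1 ≤ n ∧ ∃ x : ℤ, x ^ 2 - d * (n : ℤ) ^ 2 = 1 := by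
    refine ⟨y.toNat, by omega, x, ?_⟩
    rw [Int.toNat_of_nonneg (by omega)]
    exact h
  obtain ⟨h1, x₁, h2⟩ := Nat.find_spec hex
  have hmin : ∀ m : ℕ, (1 ≤ m ∧ ∃ x : ℤ, x ^ 2 - d * (m : ℤ) ^ 2 = 1) → Nat.find hex ≤ m :=
    fun m hm => Nat.find_min' hex hm
  generalize Nat.find hex = n at h1 h2 hmin
  refine ⟨|x₁|, n, ⟨?_, by exact_mod_cast h1, ?_, ?_⟩, ?_⟩
  · have : x₁ ≠ 0 := by
      rintro rfl
      have : 0 ≤ d * (n : ℤ) ^ 2 := by positivity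
      omega
    exact Int.one_le_abs this
  · rw [sq_abs]; exact h2
  · intro x' y' hy' h'
    have := hmin y'.toNat ⟨by omega, x', by rw [Int.toNat_of_nonneg (by omega)]; exact h'⟩
    omega
  · have := hmin y.toNat ⟨by omega, x, by rw [Int.toNat_of_nonneg (by omega)]; exact h⟩
    omega

/-- The set to be counted. -/
def SX (δ X : ℝ) : Set ℤ := {d : ℤ | 2 ≤ d ∧ (d : ℝ) ≤ X ∧ Squarefree d ∧ ∃ x y : ℤ, 1 ≤ y ∧
    (y : ℝ) ≤ Real.exp (Real.log X ^ (3 / 2 - δ)) ∧ x ^ 2 - d * y ^ 2 = 1}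

/-- The block. -/
def BD (δ D : ℝ) : Set ℤ := {d : ℤ | D ≤ d ∧ (d : ℝ) ≤ 2 * D ∧ Squarefree d ∧
    ∃ x y : ℤ, Fund d x y ∧ (y : ℝ) ≤ Real.exp (Real.log D ^ (3 / 2 - δ))}

theorem finite_BD (δ D : ℝ) : (BD δ D).Finite := by
  refine (Set.finite_Icc ⌈D⌉ ⌊2 * D⌋).subset ?_
  rintro d ⟨h1, h2, _⟩
  exact ⟨Int.ceil_le.2 h1, Int.le_floor.2 h2⟩

theorem ncard_Icc_le (Y : ℝ) (hY : 0 ≤ Y) : ({d : ℤ | 1 ≤ d ∧ (d : ℝ) ≤ Y}.ncard : ℝ) ≤ Y := by
  have e : {d : ℤ | 1 ≤ d ∧ (d : ℝ) ≤ Y} = ((Finset.Icc 1 ⌊Y⌋ : Finset ℤ) : Set ℤ) := by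
    ext d
    simp [Int.le_floor]
  rw [e, Set.ncard_coe_finset, Int.card_Icc]
  have h0 : 0 ≤ ⌊Y⌋ := Int.floor_nonneg.2 hY
  have h1 : ((⌊Y⌋ + 1 - 1).toNat : ℝ) = (⌊Y⌋ : ℝ) := by
    have : ((⌊Y⌋ + 1 - 1).toNat : ℤ) = ⌊Y⌋ := by omega
    exact_mod_cast this
  rw [h1]
  exact Int.floor_le Y

theorem finite_Icc' (Y : ℝ) : {d : ℤ | 1 ≤ d ∧ (d : ℝ) ≤ Y}.Finite := by
  refine (Set.finite_Icc 1 ⌊Y⌋).subset ?_
  rintro d ⟨h1, h2⟩
  exact ⟨h1, Int.le_floor.2 h2⟩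

theorem cover (δ X : ℝ) (hX : 1 ≤ X) (hlog : 0 ≤ Real.log X)
    (h4 : Real.log X / 3 ≤ Real.log (√X / 2)) (hδ1 : δ < 1 / 2) (hδ0 : 0 < δ)
    (h1 : Real.log X ^ (3 / 2 - δ) ≤ (Real.log X / 3) ^ (3 / 2 - 3 * δ / 4)) :
    SX δ X ⊆ {d : ℤ | 1 ≤ d ∧ (d : ℝ) ≤ √X} ∪
      ⋃ j ∈ (Finset.range ⌈X⌉₊).filter (fun j => √X / 2 ≤ X / 2 ^ (j + 1)),
        BD (3 * δ / 4) (X / 2 ^ (j + 1)) := by
  rintro d ⟨hd2, hdX, hsq, x, y, hy1, hy, hxy⟩
  by_cases hs : (d : ℝ) ≤ √X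
  · exact Or.inl ⟨by omega, hs⟩
  right
  push Not at hs
  have hX0 : 0 < X := by linarith
  have hsX : 0 < √X := Real.sqrt_pos.2 hX0
  have hd0 : (0 : ℝ) < d := by linarith
  have hr1 : 1 ≤ X / d := (one_le_div hd0).2 hdX
  obtain ⟨j, hj1, hj2⟩ := exists_nat_pow_near hr1 (one_lt_two)
  -- 2 ^ j ≤ X / d < 2 ^ (j+1)
  have hp : (0 : ℝ) < 2 ^ j := by positivity
  have hp' : (0 : ℝ) < 2 ^ (j + 1) := by positivity
  have hdj : (d : ℝ) * 2 ^ j ≤ X := by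
    rw [le_div_iff₀ hd0] at hj1
    linarith
  have hdj' : X < (d : ℝ) * 2 ^ (j + 1) := by
    rw [div_lt_iff₀ hd0] at hj2
    linarith
  have hDd : X / 2 ^ (j + 1) ≤ d := by
    rw [div_le_iff₀ hp']
    exact hdj'.le
  have hdD : (d : ℝ) ≤ 2 * (X / 2 ^ (j + 1)) := by
    have e : 2 * (X / 2 ^ (j + 1)) = X / 2 ^ j := by
      rw [pow_succ]
      field_simp
    rw [e, le_div_iff₀ hp]
    exact hdj
  have hlow : √X / 2 ≤ X / 2 ^ (j + 1) := by linarith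
  have hjN : j < ⌈X⌉₊ := by
    have h1 : (j : ℝ) < 2 ^ j := by exact_mod_cast Nat.lt_two_pow_self
    have h2 : (2 : ℝ) ^ j ≤ X := by
      refine hj1.trans ?_
      exact div_le_self hX0.le (by
        have : (2 : ℤ) ≤ d := hd2
        have : (2 : ℝ) ≤ d := by exact_mod_cast this
        linarith)
    exact Nat.lt_ceil.2 (by linarith)
  rw [Set.mem_iUnion₂]
  refine ⟨j, Finset.mem_filter.2 ⟨Finset.mem_range.2 hjN, hlow⟩, hDd, hdD, hsq, ?_⟩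
  obtain ⟨x₀, y₀, hf, hle⟩ := exists_fund d x y (by omega) hy1 hxy
  refine ⟨x₀, y₀, hf, ?_⟩
  have hy0 : (y₀ : ℝ) ≤ y := by exact_mod_cast hle
  refine (hy0.trans hy).trans (Real.exp_le_exp.2 (h1.trans ?_))
  refine Real.rpow_le_rpow (by positivity) ?_ (by linarith)
  exact h4.trans (Real.log_le_log (by positivity) hlow)

theorem sum_half (X : ℝ) (hX : 0 ≤ X) (N : ℕ) (s : Finset ℕ) (hs : s ⊆ Finset.range N) :
    ∑ j ∈ s, X / 2 ^ (j + 1) ≤ X := by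
  have h1 : ∑ j ∈ s, X / 2 ^ (j + 1) ≤ ∑ j ∈ Finset.range N, X / 2 ^ (j + 1) :=
    Finset.sum_le_sum_of_subset_of_nonneg hs fun _ _ _ => by positivity
  have h2 : ∑ j ∈ Finset.range N, X / 2 ^ (j + 1) = X - X / 2 ^ N := by
    clear h1 hs
    induction N with
    | zero => simp
    | succ n ih =>
      rw [Finset.sum_range_succ, ih, pow_succ]
      field_simp
      ring
  have h3 : 0 ≤ X / 2 ^ N := by positivity
  linarith

theorem large (δ X D₁ : ℝ) (hX : 1 ≤ X) (hlog : 0 ≤ Real.log X) (hδ1 : δ < 1 / 2) (hδ0 : 0 < δ)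
    (hblk : ∀ D : ℝ, D₁ ≤ D → ((BD (3 * δ / 4) D).ncard : ℝ) ≤
      D * Real.exp (-(Real.log D ^ (3 * δ / 4 / 2))))
    (h5 : D₁ ≤ √X / 2) (h4 : Real.log X / 3 ≤ Real.log (√X / 2))
    (h1 : Real.log X ^ (3 / 2 - δ) ≤ (Real.log X / 3) ^ (3 / 2 - 3 * δ / 4))
    (h2 : Real.log X ^ (δ / 4) ≤ (Real.log X / 3) ^ (3 * δ / 4 / 2))
    (h3 : √X ≤ X * Real.exp (-(Real.log X ^ (δ / 4)))) :
    ((SX δ X).ncard : ℝ) ≤ 2 * X * Real.exp (-(Real.log X ^ (δ / 4))) := by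
  have hX0 : 0 < X := by linarith
  have hsX : 0 < √X := Real.sqrt_pos.2 hX0
  set s := (Finset.range ⌈X⌉₊).filter (fun j => √X / 2 ≤ X / 2 ^ (j + 1)) with hs
  have hfin : ({d : ℤ | 1 ≤ d ∧ (d : ℝ) ≤ √X} ∪
      ⋃ j ∈ s, BD (3 * δ / 4) (X / 2 ^ (j + 1))).Finite :=
    (finite_Icc' _).union (Set.Finite.biUnion s.finite_toSet fun j _ => finite_BD _ _)
  have c1 := Set.ncard_le_ncard (cover δ X hX hlog h4 hδ1 hδ0 h1) hfin
  have c2 := Set.ncard_union_le {d : ℤ | 1 ≤ d ∧ (d : ℝ) ≤ √X}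
    (⋃ j ∈ s, BD (3 * δ / 4) (X / 2 ^ (j + 1)))
  have c3 := Finset.set_ncard_biUnion_le s (fun j => BD (3 * δ / 4) (X / 2 ^ (j + 1)))
  have c4 := ncard_Icc_le (√X) hsX.le
  have c5 : ((∑ j ∈ s, (BD (3 * δ / 4) (X / 2 ^ (j + 1))).ncard : ℕ) : ℝ)
      ≤ X * Real.exp (-(Real.log X ^ (δ / 4))) := by
    push_cast
    calc ∑ j ∈ s, ((BD (3 * δ / 4) (X / 2 ^ (j + 1))).ncard : ℝ)
        ≤ ∑ j ∈ s, X / 2 ^ (j + 1) * Real.exp (-(Real.log X ^ (δ / 4))) := by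
          refine Finset.sum_le_sum fun j hj => ?_
          have hj' : √X / 2 ≤ X / 2 ^ (j + 1) := (Finset.mem_filter.1 hj).2
          refine (hblk _ (h5.trans hj')).trans ?_
          refine mul_le_mul_of_nonneg_left ?_ (by positivity)
          refine Real.exp_le_exp.2 (neg_le_neg (h2.trans ?_))
          refine Real.rpow_le_rpow (by positivity) ?_ (by positivity)
          exact h4.trans (Real.log_le_log (by positivity) hj')
      _ = (∑ j ∈ s, X / 2 ^ (j + 1)) * Real.exp (-(Real.log X ^ (δ / 4))) := by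
          rw [Finset.sum_mul]
      _ ≤ X * Real.exp (-(Real.log X ^ (δ / 4))) :=
          mul_le_mul_of_nonneg_right (sum_half X hX0.le ⌈X⌉₊ s (Finset.filter_subset _ _))
            (Real.exp_pos _).le
  have c6 : ((SX δ X).ncard : ℝ) ≤ ({d : ℤ | 1 ≤ d ∧ (d : ℝ) ≤ √X}.ncard : ℝ)
      + ((∑ j ∈ s, (BD (3 * δ / 4) (X / 2 ^ (j + 1))).ncard : ℕ) : ℝ) := by
    exact_mod_cast c1.trans (c2.trans (Nat.add_le_add_left c3 _))
  linarith

/-- UFIN. -/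
theorem ufin (hBLK : StmtBLK) : StmtUFIN := by
  intro δ hδ0 hδ1
  obtain ⟨D₁, hD₁, hblk⟩ := hBLK (3 * δ / 4) (by linarith) (by linarith)
  -- eventual inequalities
  have tl := Real.tendsto_log_atTop
  have e1 : ∀ᶠ X : ℝ in atTop, Real.log X ^ (3 / 2 - δ) ≤
      (Real.log X / 3) ^ (3 / 2 - 3 * δ / 4) := by
    have h := (tendsto_rpow_atTop (y := δ / 4) (by linarith)).eventually_ge_atTop
      ((3 : ℝ) ^ (3 / 2 - 3 * δ / 4))
    have h' := h.and (eventually_gt_atTop (0 : ℝ))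
    filter_upwards [tl.eventually h'] with X hX
    obtain ⟨ha, hb⟩ := hX
    rw [Real.div_rpow hb.le (by norm_num), le_div_iff₀ (Real.rpow_pos_of_pos (by norm_num) _)]
    have e : (3 / 2 - 3 * δ / 4 : ℝ) = (3 / 2 - δ) + δ / 4 := by ring
    calc Real.log X ^ (3 / 2 - δ) * 3 ^ (3 / 2 - 3 * δ / 4)
        ≤ Real.log X ^ (3 / 2 - δ) * Real.log X ^ (δ / 4) :=
          mul_le_mul_of_nonneg_left ha (Real.rpow_nonneg hb.le _)
      _ = Real.log X ^ (3 / 2 - 3 * δ / 4) := by rw [e, Real.rpow_add hb]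
  have e2 : ∀ᶠ X : ℝ in atTop, Real.log X ^ (δ / 4) ≤
      (Real.log X / 3) ^ (3 * δ / 4 / 2) := by
    have h := (tendsto_rpow_atTop (y := δ / 8) (by linarith)).eventually_ge_atTop
      ((3 : ℝ) ^ (3 * δ / 4 / 2))
    have h' := h.and (eventually_gt_atTop (0 : ℝ))
    filter_upwards [tl.eventually h'] with X hX
    obtain ⟨ha, hb⟩ := hX
    rw [Real.div_rpow hb.le (by norm_num), le_div_iff₀ (Real.rpow_pos_of_pos (by norm_num) _)]
    have e : (3 * δ / 4 / 2 : ℝ) = δ / 4 + δ / 8 := by ring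
    calc Real.log X ^ (δ / 4) * 3 ^ (3 * δ / 4 / 2)
        ≤ Real.log X ^ (δ / 4) * Real.log X ^ (δ / 8) :=
          mul_le_mul_of_nonneg_left ha (Real.rpow_nonneg hb.le _)
      _ = Real.log X ^ (3 * δ / 4 / 2) := by rw [e, Real.rpow_add hb]
  have e3 : ∀ᶠ X : ℝ in atTop, √X ≤ X * Real.exp (-(Real.log X ^ (δ / 4))) := by
    have h := (tendsto_rpow_atTop (y := 1 - δ / 4) (by linarith)).eventually_ge_atTop (2 : ℝ)
    have h' := h.and (eventually_gt_atTop (0 : ℝ))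
    filter_upwards [tl.eventually h', eventually_gt_atTop (0 : ℝ)] with X hX hX0
    obtain ⟨ha, hb⟩ := hX
    have h1 : 2 * Real.log X ^ (δ / 4) ≤ Real.log X := by
      calc 2 * Real.log X ^ (δ / 4) ≤ Real.log X ^ (1 - δ / 4) * Real.log X ^ (δ / 4) :=
            mul_le_mul_of_nonneg_right ha (Real.rpow_nonneg hb.le _)
        _ = Real.log X := by
            rw [← Real.rpow_add hb]
            have : (1 - δ / 4 + δ / 4 : ℝ) = 1 := by ring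
            rw [this, Real.rpow_one]
    have h2 : √X = Real.exp (Real.log X / 2) := by
      rw [Real.sqrt_eq_rpow, Real.rpow_def_of_pos hX0]
      congr 1
      ring
    have h3 : X * Real.exp (-(Real.log X ^ (δ / 4)))
        = Real.exp (Real.log X - Real.log X ^ (δ / 4)) := by
      rw [sub_eq_add_neg, Real.exp_add, Real.exp_log hX0]
    rw [h2, h3]
    exact Real.exp_le_exp.2 (by linarith)
  have e4 : ∀ᶠ X : ℝ in atTop, Real.log X / 3 ≤ Real.log (√X / 2) := by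
    filter_upwards [tl.eventually_ge_atTop (6 * Real.log 2), eventually_gt_atTop (0 : ℝ)]
      with X hX hX0
    rw [Real.log_div (Real.sqrt_pos.2 hX0).ne' two_ne_zero, Real.log_sqrt hX0.le]
    linarith
  have e5 : ∀ᶠ X : ℝ in atTop, D₁ ≤ √X / 2 := by
    filter_upwards [Real.tendsto_sqrt_atTop.eventually_ge_atTop (2 * D₁)] with X hX
    linarith
  obtain ⟨X₀, hX₀⟩ := eventually_atTop.1 (e1.and (e2.and (e3.and (e4.and e5))))
  refine ⟨max 2 (Real.exp (Real.log (max X₀ 1) ^ (δ / 4))), fun X hX => ?_⟩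
  have hX0 : 0 < X := by linarith
  have hlog : 0 ≤ Real.log X := Real.log_nonneg hX
  show ((SX δ X).ncard : ℝ) ≤ _
  by_cases hc : X₀ ≤ X
  · obtain ⟨a1, a2, a3, a4, a5⟩ := hX₀ X hc
    have h := large δ X D₁ hX hlog hδ1 hδ0 hblk a5 a4 a1 a2 a3
    refine h.trans ?_
    refine mul_le_mul_of_nonneg_right ?_ (Real.exp_pos _).le
    exact mul_le_mul_of_nonneg_right (le_max_left _ _) hX0.le
  · push Not at hc
    have c1 : ((SX δ X).ncard : ℝ) ≤ X := by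
      have h1 : SX δ X ⊆ {d : ℤ | 1 ≤ d ∧ (d : ℝ) ≤ X} := by
        rintro d ⟨hd2, hdX, _⟩
        exact ⟨by omega, hdX⟩
      have h2 := Set.ncard_le_ncard h1 (finite_Icc' X)
      have h3 := ncard_Icc_le X hX0.le
      have h4 : ((SX δ X).ncard : ℝ) ≤ ({d : ℤ | 1 ≤ d ∧ (d : ℝ) ≤ X}.ncard : ℝ) := by
        exact_mod_cast h2
      linarith
    have c2 : 1 ≤ Real.exp (Real.log (max X₀ 1) ^ (δ / 4)) *
        Real.exp (-(Real.log X ^ (δ / 4))) := by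
      rw [← Real.exp_add]
      refine Real.one_le_exp ?_
      have : Real.log X ^ (δ / 4) ≤ Real.log (max X₀ 1) ^ (δ / 4) := by
        refine Real.rpow_le_rpow hlog ?_ (by positivity)
        exact Real.log_le_log hX0 (hc.le.trans (le_max_left _ _))
      linarith
    calc ((SX δ X).ncard : ℝ) ≤ X * 1 := by linarith
      _ ≤ X * (Real.exp (Real.log (max X₀ 1) ^ (δ / 4)) *
          Real.exp (-(Real.log X ^ (δ / 4)))) := mul_le_mul_of_nonneg_left c2 hX0.le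
      _ = Real.exp (Real.log (max X₀ 1) ^ (δ / 4)) * X *
          Real.exp (-(Real.log X ^ (δ / 4))) := by ring
      _ ≤ _ := by
          refine mul_le_mul_of_nonneg_right ?_ (Real.exp_pos _).le
          exact mul_le_mul_of_nonneg_right (le_max_right _ _) hX0.le

end

end Pool.Agent.Q144.UF
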